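import Mathlib

/-!
# Congruent numbers from right triangles (helper96)
-/

set_option autoImplicit false

namespace Pool.Agent.T6.H96.CN

/-- `x² + a y² = z²`, `x² - a y² = t²` is solvable in positive integers -/
def Congruent (a : ℕ) : Prop :=
  ∃ x y z t : ℕ, 0 < x ∧ 0 < y ∧ 0 < z ∧ 0 < t ∧ x ^ 2 + a * y ^ 2 = z ^ 2 ∧ x ^ 2 = a * y ^ 2 + t ^ 2

theorem two_sq_ne (m n : ℤ) (hn : n ≠ 0) : m ^ 2 ≠ 2 * n ^ 2 := by
  intro h
  have hn' : (n : ℝ) ≠ 0 := by exact_mod_cast hn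
  have h1 : ((m : ℝ) / n) ^ 2 = 2 := by
    rw [div_pow, div_eq_iff (by positivity)]
    exact_mod_cast h
  apply irrational_sqrt_two
  refine ⟨|(m : ℚ) / n|, ?_⟩
  push_cast
  rw [← Real.sqrt_sq_eq_abs, h1]

/-- the area of the right triangle with the generators `m > n` -/
theorem congruent_area {m n : ℕ} (hn : 0 < n) (hmn : n < m) : Congruent (m * n * ((m - n) * (m + n))) := by
  obtain ⟨k, rfl⟩ := Nat.exists_eq_add_of_lt hmn
  have e : n + k + 1 - n = k + 1 := by omega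
  rw [e]
  have hnn : (n : ℤ) ≠ 0 := by exact_mod_cast hn.ne'
  -- the difference of the legs
  have hne : ((k : ℤ) + 1) * (2 * n + k + 1) - 2 * (n + k + 1) * n ≠ 0 := by
    intro h
    apply two_sq_ne ((k : ℤ) + 1) n hnn
    nlinarith
  refine ⟨(n + k + 1) ^ 2 + n ^ 2, 2, 2 * (n + k + 1) * n + (k + 1) * (n + k + 1 + n),
    (((k : ℤ) + 1) * (2 * n + k + 1) - 2 * (n + k + 1) * n).natAbs, by positivity, by norm_num, by positivity,
    Int.natAbs_pos.2 hne, by ring, ?_⟩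
  have h1 : (((((k : ℤ) + 1) * (2 * n + k + 1) - 2 * (n + k + 1) * n).natAbs : ℕ) : ℤ) ^ 2 =
      (((k : ℤ) + 1) * (2 * n + k + 1) - 2 * (n + k + 1) * n) ^ 2 := Int.natAbs_sq _
  have h2 : (((n + k + 1) ^ 2 + n ^ 2 : ℕ) : ℤ) ^ 2 =
      (((n + k + 1) * n * ((k + 1) * (n + k + 1 + n)) : ℕ) : ℤ) * 2 ^ 2 +
      (((((k : ℤ) + 1) * (2 * n + k + 1) - 2 * (n + k + 1) * n).natAbs : ℕ) : ℤ) ^ 2 := by
    rw [h1]
    push_cast
    ring
  exact_mod_cast h2

theorem congruent_of_mul_sq {f s : ℕ} (hs : 0 < s) (h : Congruent (f * s ^ 2)) : Congruent f := by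
  obtain ⟨x, y, z, t, hx, hy, hz, ht, h1, h2⟩ := h
  refine ⟨x, s * y, z, t, hx, by positivity, hz, ht, ?_, ?_⟩
  · rw [← h1]; ring
  · rw [h2]; ring

/-- the squarefree part -/
theorem exists_sf {N S : ℕ} (hN : 0 < N) (hS : 0 < S) (h : Congruent (N * S ^ 2)) (hr : N % 8 = 5 ∨ N % 8 = 6 ∨ N % 8 = 7) :
    ∃ f s : ℕ, N = f * s ^ 2 ∧ Squarefree f ∧ Congruent f ∧ f % 8 = N % 8 := by
  obtain ⟨f, s, hfs, hsf⟩ := Nat.sq_mul_squarefree N
  have hs0 : 0 < s := by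
    rcases Nat.eq_zero_or_pos s with h0 | h0
    · rw [h0] at hfs
      simp at hfs
      omega
    · exact h0
  have e : N = f * s ^ 2 := by rw [← hfs]; ring
  refine ⟨f, s, e, hsf, ?_, ?_⟩
  · apply congruent_of_mul_sq (s := s * S) (by positivity)
    have e2 : f * (s * S) ^ 2 = N * S ^ 2 := by rw [e]; ring
    rw [e2]
    exact h
  · -- s is odd
    have hs : s % 2 = 1 := by
      by_contra hcon
      have h2 : s % 2 = 0 := by omega
      obtain ⟨k, hk⟩ := Nat.dvd_of_mod_eq_zero h2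
      have h4 : N = 4 * (f * k ^ 2) := by rw [e, hk]; ring
      omega
    have h8 : s ^ 2 % 8 = 1 := by
      rw [Nat.pow_mod]
      have h9 : s % 8 = 1 ∨ s % 8 = 3 ∨ s % 8 = 5 ∨ s % 8 = 7 := by omega
      rcases h9 with h9 | h9 | h9 | h9 <;> rw [h9]
    rw [e, Nat.mul_mod, h8, mul_one, Nat.mod_mod]

/-- **the class modulo 8** -/
theorem class_mod {e d b q n : ℕ} (hn : 4 ∣ n) (hm : Odd (d * b)) (hlt : n < d * b) :
    (e * d * b * q * ((d * b - n) * (d * b + n))) % 8 = (e * (d * b * q)) % 8 := by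
  obtain ⟨k, hk⟩ := hn
  obtain ⟨j, hj⟩ := hm
  have h1 : ((d * b - n) * (d * b + n)) % 8 = 1 := by
    obtain ⟨i, hi⟩ : ∃ i, d * b - n = 2 * i + 1 := ⟨j - 2 * k, by omega⟩
    have h2 : d * b + n = 2 * i + 1 + 8 * k := by omega
    rw [h2, hi]
    have h3 : (2 * i + 1) * (2 * i + 1 + 8 * k) = 4 * (i * (i + 1)) + 1 + 8 * (k * (2 * i + 1)) := by ring
    rw [h3]
    have h4 : 2 ∣ i * (i + 1) := (Nat.even_mul_succ_self i).two_dvd
    omega
  have h5 : e * d * b * q = e * (d * b * q) := by ring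
  rw [Nat.mul_mod, h1, mul_one, Nat.mod_mod, h5]

end Pool.Agent.T6.H96.CN
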