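import Pool.Agent.T6.H2.CL.Prime

/-!
# Clusters of primes `q` with all `n_i ± κ_i q` almost prime (helper96)

`n_i` arbitrary odd numbers, `κ_i = e_i c(n_i) ^ 2` with `e_i ∈ {1, 2}` and `c(n)` the product of the primes `≤ 2 K + 1` which
do not divide `n`.
-/

set_option autoImplicit false

namespace Pool.Agent.T6.H96.CN

open Finset Filter
open Pool.Agent.X32.Uni Pool.Agent.T6.H2.PT Pool.Agent.T6.H2.CL

variable {K : ℕ}

/-- the product of the primes `≤ 2 K + 1` which do not divide `n` -/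
def slope (K n : ℕ) : ℕ := ∏ q ∈ (range (2 * K + 2)).filter (fun q => q.Prime ∧ ¬ q ∣ n), q

/-- the product of the primes `≤ 2 K + 1` -/
def prim (K : ℕ) : ℕ := ∏ q ∈ (range (2 * K + 2)).filter Nat.Prime, q

theorem slope_pos (K n : ℕ) : 0 < slope K n := by
  unfold slope
  apply Finset.prod_pos
  intro q hq
  exact (mem_filter.1 hq).2.1.pos

theorem prim_pos (K : ℕ) : 0 < prim K := by
  unfold prim
  apply Finset.prod_pos
  intro q hq
  exact (mem_filter.1 hq).2.pos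

theorem slope_le (K n : ℕ) : slope K n ≤ prim K := by
  unfold slope prim
  apply Finset.prod_le_prod_of_subset_of_one_le'
  · intro q hq
    rw [mem_filter] at hq ⊢
    exact ⟨hq.1, hq.2.1⟩
  · intro q hq _
    exact (Nat.Prime.one_lt (mem_filter.1 hq).2).le

theorem dvd_slope {K n q : ℕ} (hq : q.Prime) (h : q ∣ slope K n) : q < 2 * K + 2 ∧ ¬ q ∣ n := by
  unfold slope at h
  obtain ⟨q', hq', hd⟩ := (Nat.Prime.prime hq).exists_mem_finset_dvd h
  rw [mem_filter, mem_range] at hq'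
  have : q = q' := (Nat.prime_dvd_prime_iff_eq hq hq'.2.1).1 hd
  rw [this]
  exact ⟨hq'.1, hq'.2.2⟩

theorem slope_dvd {K n q : ℕ} (hq : q.Prime) (h : q < 2 * K + 2) (hn : ¬ q ∣ n) : q ∣ slope K n := by
  unfold slope
  exact dvd_prod_of_mem _ (mem_filter.2 ⟨mem_range.2 h, hq, hn⟩)

/-- the coefficient `κ = e c(n) ^ 2` -/
def kap (K n e : ℕ) : ℕ := e * slope K n ^ 2

theorem kap_pos {K n e : ℕ} (he : e = 1 ∨ e = 2) : 0 < kap K n e := by
  have := slope_pos K n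
  unfold kap
  rcases he with h | h <;> rw [h] <;> positivity

theorem kap_le {K n e : ℕ} (he : e = 1 ∨ e = 2) : kap K n e ≤ 2 * prim K ^ 2 := by
  unfold kap
  have h1 : slope K n ^ 2 ≤ prim K ^ 2 := Nat.pow_le_pow_left (slope_le K n) 2
  rcases he with h | h <;> rw [h] <;> omega

theorem kap_small {K n e q : ℕ} (hK : 1 ≤ K) (he : e = 1 ∨ e = 2) (hq : q.Prime) (h : q ∣ kap K n e) : q < 2 * K + 2 := by
  unfold kap at h
  rcases (Nat.Prime.dvd_mul hq).1 h with h1 | h1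
  · rcases he with he | he
    · rw [he] at h1
      exact absurd (Nat.dvd_one.1 h1) hq.one_lt.ne'
    · rw [he] at h1
      have := Nat.le_of_dvd (by norm_num) h1
      omega
  · exact (dvd_slope hq (hq.dvd_of_dvd_pow h1)).1

theorem kap_one {K n e q : ℕ} (hn : Odd n) (he : e = 1 ∨ e = 2) (hq : q.Prime) (h : q < 2 * K + 2) :
    ¬ (q ∣ n ∧ q ∣ kap K n e) ∧ (q ∣ n ∨ q ∣ kap K n e) := by
  constructor
  · rintro ⟨h1, h2⟩
    unfold kap at h2
    rcases (Nat.Prime.dvd_mul hq).1 h2 with h3 | h3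
    · rcases he with he | he
      · rw [he] at h3
        exact absurd (Nat.dvd_one.1 h3) hq.one_lt.ne'
      · rw [he] at h3
        have h4 : q = 2 := (Nat.prime_dvd_prime_iff_eq hq Nat.prime_two).1 h3
        rw [h4] at h1
        exact (Nat.not_even_iff_odd.2 hn) (even_iff_two_dvd.2 h1)
    · exact (dvd_slope hq (hq.dvd_of_dvd_pow h3)).2 h1
  · by_cases h1 : q ∣ n
    · exact Or.inl h1
    · refine Or.inr ?_
      unfold kap
      exact Dvd.dvd.mul_left (dvd_pow (slope_dvd hq h h1) (by norm_num)) _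

/-- the slopes and the constant terms -/
def sl (n e : Fin K → ℕ) : Fin (K + K + 1) → ℤ :=
  Fin.cons 1 (Fin.append (fun i => (kap K (n i) (e i) : ℤ)) (fun i => -(kap K (n i) (e i) : ℤ)))

def co (n : Fin K → ℕ) : Fin (K + K + 1) → ℤ :=
  Fin.cons 0 (Fin.append (fun i => (n i : ℤ)) (fun i => (n i : ℤ)))

theorem idx_cases (P : Fin (K + K + 1) → Prop) (h0 : P 0)
    (h2 : ∀ l : Fin K, P (Fin.castAdd K l).succ) (h3 : ∀ l : Fin K, P (Fin.natAdd K l).succ)
    (l : Fin (K + K + 1)) : P l := by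
  refine Fin.cases h0 (fun l => ?_) l
  exact Fin.addCases h2 h3 l

theorem sl0 (n e : Fin K → ℕ) : sl n e 0 = 1 := rfl

theorem sl2 (n e : Fin K → ℕ) (l : Fin K) : sl n e (Fin.castAdd K l).succ = kap K (n l) (e l) := by
  unfold sl
  rw [Fin.cons_succ, Fin.append_left]

theorem sl3 (n e : Fin K → ℕ) (l : Fin K) : sl n e (Fin.natAdd K l).succ = -kap K (n l) (e l) := by
  unfold sl
  rw [Fin.cons_succ, Fin.append_right]

theorem co0 (n : Fin K → ℕ) : co n 0 = 0 := rfl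

theorem co2 (n : Fin K → ℕ) (l : Fin K) : co n (Fin.castAdd K l).succ = (n l : ℤ) := by
  unfold co
  rw [Fin.cons_succ, Fin.append_left]

theorem co3 (n : Fin K → ℕ) (l : Fin K) : co n (Fin.natAdd K l).succ = (n l : ℤ) := by
  unfold co
  rw [Fin.cons_succ, Fin.append_right]

theorem dvd_of_eq {q x y : ℤ} (h : q ∣ x) (e : x = y) : q ∣ y := e ▸ h

/-- the local condition -/
theorem adm (hK : 1 ≤ K) (n e : Fin K → ℕ) (hn : ∀ i, Odd (n i)) (he : ∀ i, e i = 1 ∨ e i = 2) (q : ℕ) (hq : q.Prime) :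
    ∃ x : ℤ, ∀ l, ¬ (q : ℤ) ∣ sl n e l * x + co n l := by
  have h1 : ¬ (q : ℤ) ∣ 1 := fun h => hq.one_lt.ne' (Nat.dvd_one.1 (by exact_mod_cast h))
  rcases Nat.lt_or_ge (2 * K + 1) q with hlt | hge
  · apply Pool.Agent.T6.H2.PR.adm_big _ _ q hq _ (by omega)
    have h2 : ∀ l, ¬ (q : ℤ) ∣ (kap K (n l) (e l) : ℤ) := by
      intro l h
      have := kap_small hK (he l) hq (Int.natCast_dvd_natCast.1 h)
      omega
    refine idx_cases _ h1 (fun l => ?_) (fun l => ?_)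
    · rw [sl2]; exact h2 l
    · rw [sl3, dvd_neg]; exact h2 l
  · have key : ∀ l, ¬ ((q : ℤ) ∣ (n l : ℤ) ∧ (q : ℤ) ∣ (kap K (n l) (e l) : ℤ)) ∧
        ((q : ℤ) ∣ (n l : ℤ) ∨ (q : ℤ) ∣ (kap K (n l) (e l) : ℤ)) := by
      intro l
      rw [Int.natCast_dvd_natCast, Int.natCast_dvd_natCast]
      exact kap_one (hn l) (he l) hq (by omega)
    refine ⟨1, idx_cases _ ?_ (fun l => ?_) (fun l => ?_)⟩
    · rw [sl0, co0]
      simpa using h1
    · rw [sl2, co2]
      intro h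
      rcases (key l).2 with h2 | h2
      · exact (key l).1 ⟨h2, dvd_of_eq (dvd_sub h h2) (by ring)⟩
      · exact (key l).1 ⟨dvd_of_eq (dvd_sub h h2) (by ring), h2⟩
    · rw [sl3, co3]
      intro h
      rcases (key l).2 with h2 | h2
      · exact (key l).1 ⟨h2, dvd_of_eq (dvd_sub h2 h) (by ring)⟩
      · exact (key l).1 ⟨dvd_of_eq (dvd_add h h2) (by ring), h2⟩

/-- the values at the arguments up to `2 X` -/
theorem val_low {n e : Fin K → ℕ} {X : ℕ} (he : ∀ i, e i = 1 ∨ e i = 2)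
    (hn : ∀ i, 7 * prim K ^ 2 * X ≤ n i) (l : Fin (K + K + 1))
    {x : ℤ} (hx0 : 0 ≤ x) (hx2 : x ≤ 2 * (X : ℤ)) : (l = 0) ∨ 3 * (X : ℤ) ≤ sl n e l * x + co n l := by
  have hP1 : (1 : ℤ) ≤ (prim K : ℤ) ^ 2 := by
    have h1 : (1 : ℤ) ≤ prim K := by exact_mod_cast prim_pos K
    nlinarith
  have hX0 : (0 : ℤ) ≤ X := by positivity
  have key : ∀ i, (kap K (n i) (e i) : ℤ) * x + 3 * (X : ℤ) ≤ (n i : ℤ) ∧ 0 ≤ (kap K (n i) (e i) : ℤ) * x := by
    intro i
    have h1 : (7 * (prim K : ℤ) ^ 2 * X) ≤ n i := by exact_mod_cast hn i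
    have h3 : (0 : ℤ) < kap K (n i) (e i) := by exact_mod_cast kap_pos (he i)
    have h4 : (kap K (n i) (e i) : ℤ) ≤ 2 * (prim K : ℤ) ^ 2 := by exact_mod_cast kap_le (he i)
    have h5 : (kap K (n i) (e i) : ℤ) * x ≤ kap K (n i) (e i) * (2 * X) := mul_le_mul_of_nonneg_left hx2 h3.le
    have h6 : (kap K (n i) (e i) : ℤ) * (2 * X) ≤ 2 * (prim K : ℤ) ^ 2 * (2 * X) :=
      mul_le_mul_of_nonneg_right h4 (by positivity)
    have h7 : 3 * (X : ℤ) ≤ 3 * (prim K : ℤ) ^ 2 * X := by nlinarith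
    refine ⟨by nlinarith, mul_nonneg h3.le hx0⟩
  revert l
  refine idx_cases _ (Or.inl rfl) (fun i => Or.inr ?_) (fun i => Or.inr ?_)
  · rw [sl2, co2]
    linarith [(key i).1, (key i).2]
  · rw [sl3, co3]
    linarith [(key i).1, (key i).2]

/-- `p` starts a cluster: it is the first of at least `m` primes in `[p, p + C]`, there are no other primes at distance at most
`w` of `p`, and for all primes `q` in `[p, p + C]` all `n_i ± κ_i q` are almost prime. -/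
def Clus (n e : Fin K → ℕ) (C m T : ℕ) (y₀ w : ℝ) (p : ℕ) : Prop :=
  p.Prime ∧ m ≤ ((Icc p (p + C)).filter Nat.Prime).card ∧
    (∀ q : ℕ, q.Prime → |(q : ℝ) - p| ≤ w → p ≤ q ∧ q ≤ p + C) ∧
    ∀ q : ℕ, q.Prime → p ≤ q → q ≤ p + C → ∀ i, kap K (n i) (e i) * q < n i ∧
      Almost T y₀ ((n i - kap K (n i) (e i) * q : ℕ) : ℤ) ∧ Almost T y₀ ((n i + kap K (n i) (e i) * q : ℕ) : ℤ)

theorem core (K m : ℕ) (hK : 1 ≤ K) : ∃ C D t : ℕ, 1 ≤ t ∧ ∃ c : ℝ, 0 < c ∧ ∃ ε : ℝ, 0 < ε ∧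
    ∀ a s r : ℕ, 1 ≤ s → ∃ d X₀ : ℕ, 1 ≤ X₀ ∧ ∀ X : ℕ, X₀ ≤ X → ∀ n e : Fin K → ℕ,
      (∀ i, e i = 1 ∨ e i = 2) → (∀ i, Odd (n i)) →
      (∀ i, 7 * prim K ^ 2 * X ≤ n i ∧ n i ≤ X ^ a) → ∀ χ : ℕ → Fin r,
        ∃ S : Finset ℕ, c * X / Real.log X ^ D ≤ (S.card : ℝ) ∧
          ∀ p ∈ S, ∃ x b : ℕ, 1 ≤ b ∧ (b : ℝ) ≤ Real.log X ^ d ∧ (∃ j < s, p = x + j * b) ∧ ∀ j < s,
            X / 2 < x + j * b ∧ x + j * b ≤ 2 * X ∧
            Clus n e C m ((a + 3) * t) ((X : ℝ) ^ (1 / (t : ℝ))) (ε * Real.log X) (x + j * b) ∧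
            χ (x + j * b) = χ p := by
  obtain ⟨C, D, t, ht, c, hc, H⟩ := cluP (K + K + 1) m (by omega)
  obtain ⟨ε, hε, H⟩ := H (1 / 2) (2 * prim K ^ 2) (by norm_num)
  refine ⟨C, D, t, ht, c, hc, ε, hε, fun a s r hs => ?_⟩
  obtain ⟨d, X₁, H⟩ := H a s r hs
  have hlogt : Tendsto (fun X : ℕ => Real.log (X : ℝ)) atTop atTop :=
    Real.tendsto_log_atTop.comp tendsto_natCast_atTop_atTop
  refine ⟨d, X₁ + 2 * C + 4, by omega, fun X hX n e he hno hn χ => ?_⟩
  have hX0 : (0 : ℝ) < X := by exact_mod_cast (by omega : 0 < X)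
  have hkz : ∀ l, (kap K (n l) (e l) : ℤ) ≤ ((2 * prim K ^ 2 : ℕ) : ℤ) := fun l => by exact_mod_cast kap_le (he l)
  have hk0 : ∀ l, (0 : ℤ) < kap K (n l) (e l) := fun l => by exact_mod_cast kap_pos (he l)
  have hsq : ∀ l, |(n l : ℤ)| ≤ (X : ℤ) ^ a := by
    intro l
    have h1 : (n l : ℤ) ≤ (X : ℤ) ^ a := by exact_mod_cast (hn l).2
    rw [abs_of_nonneg (by positivity)]
    exact h1
  have hlow := fun (l : Fin (K + K + 1)) (x : ℤ) (h0 : 0 ≤ x) (h2 : x ≤ 2 * (X : ℤ)) =>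
    val_low (n := n) (e := e) he (fun i => (hn i).1) l h0 h2
  obtain ⟨S, hS1, hS2⟩ := H X (by omega) (sl n e) (co n)
    { a0 := by
        refine idx_cases _ (by rw [sl0]; norm_num) (fun l => ?_) (fun l => ?_)
        · rw [sl2]; exact (hk0 l).ne'
        · rw [sl3]; exact neg_ne_zero.2 (hk0 l).ne'
      aE := by
        refine idx_cases _ (by
          rw [sl0, abs_one]
          have := prim_pos K
          have h1 : 1 ≤ 2 * prim K ^ 2 := by nlinarith
          exact_mod_cast h1) (fun l => ?_) (fun l => ?_)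
        · rw [sl2, abs_of_pos (hk0 l)]; exact hkz l
        · rw [sl3, abs_neg, abs_of_pos (hk0 l)]; exact hkz l
      bX := by
        refine idx_cases _ (by rw [co0, abs_zero]; positivity) (fun l => ?_) (fun l => ?_)
        · rw [co2]; exact hsq l
        · rw [co3]; exact hsq l
      adm := fun q hq => adm hK n e hno he q hq
      id := ⟨0, sl0 n e, co0 n⟩ }
    (fun l => by
      by_cases hl : l = 0
      · left
        rw [hl]
        exact ⟨sl0 n e, co0 n⟩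
      · right
        intro x hx0 hx2
        rcases hlow l x hx0 hx2 with h | h
        · exact absurd h hl
        · exact h.trans (le_abs_self _)) χ
  refine ⟨S, hS1, fun p hp => ?_⟩
  obtain ⟨x, b, e1, e2, e3, e4⟩ := hS2 p hp
  refine ⟨x, b, e1, e2, e3, fun j hj => ?_⟩
  obtain ⟨e5, e6, e7, e8⟩ := e4 j hj
  refine ⟨e6, by omega, ?_, e8⟩
  obtain ⟨k1, k2, k3, k4, k5⟩ := e5
  refine ⟨k1, k2, k3, fun q hq hq1 hq2 i => ?_⟩
  have hqX : (q : ℤ) ≤ 2 * X := by exact_mod_cast (by omega : q ≤ 2 * X)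
  have hq0 : (0 : ℤ) ≤ q := by positivity
  have hv := hlow (Fin.natAdd K i).succ q hq0 hqX
  have hv' : 3 * (X : ℤ) ≤ -(kap K (n i) (e i) : ℤ) * q + n i := by
    rcases hv with h | h
    · exact absurd h (Fin.succ_ne_zero _)
    · rw [sl3, co3] at h
      exact h
  have hXp : (0 : ℤ) < X := by exact_mod_cast (by omega : 0 < X)
  have hlt : kap K (n i) (e i) * q < n i := by
    have : (kap K (n i) (e i) : ℤ) * q < n i := by linarith
    exact_mod_cast this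
  refine ⟨hlt, ?_, ?_⟩
  · have h := k4 q hq hq1 hq2 (Fin.natAdd K i).succ
    rw [sl3, co3] at h
    rw [Nat.cast_sub hlt.le]
    push_cast
    have e9 : -(kap K (n i) (e i) : ℤ) * q + n i = n i - kap K (n i) (e i) * q := by ring
    rw [e9] at h
    exact h
  · have h := k4 q hq hq1 hq2 (Fin.castAdd K i).succ
    rw [sl2, co2] at h
    push_cast
    have e9 : (kap K (n i) (e i) : ℤ) * q + n i = n i + kap K (n i) (e i) * q := by ring
    rw [e9] at h
    exact h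

end Pool.Agent.T6.H96.CN
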